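import Pool.Agent.W661.RC.Stm

/-! Project RC (MP_f81d8e_an): CutP, comparison of a projection `f` with a spectral projection `e`
of `g f g`. -/

set_option autoImplicit false

namespace Pool.Agent.W239.RC.CUT

open Matrix Pool.Agent.W661.RC
open scoped ComplexOrder MatrixOrder

variable {d : ℕ}

theorem ex_sqrt (A : Mt d) (hA : A.PosDef) :
    ∃ S T : Mt d, S.PosSemidef ∧ S * S = A ∧ S * T = 1 ∧ T * S = 1 ∧ Tᴴ = T ∧
      ∀ B : Mt d, A * B = B * A → S * B = B * S := by
  have hA0 : (0 : Mt d) ≤ A := hA.posSemidef.nonneg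
  have hS : (CFC.sqrt A) * (CFC.sqrt A) = A := CFC.sqrt_mul_sqrt_self A hA0
  have hSps : (CFC.sqrt A).PosSemidef := (CFC.sqrt_nonneg A).posSemidef
  have hdet : IsUnit (CFC.sqrt A).det := by
    have h1 : (CFC.sqrt A).det * (CFC.sqrt A).det = A.det := by
      rw [← Matrix.det_mul, hS]
    have h2 : A.det ≠ 0 := hA.det_pos.ne'
    rw [isUnit_iff_ne_zero]
    intro h
    rw [h, zero_mul] at h1
    exact h2 h1.symm
  refine ⟨CFC.sqrt A, (CFC.sqrt A)⁻¹, hSps, hS, Matrix.mul_nonsing_inv _ hdet,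
    Matrix.nonsing_inv_mul _ hdet, ?_, ?_⟩
  · rw [Matrix.conjTranspose_nonsing_inv, hSps.isHermitian.eq]
  · intro B hB
    have hc : Commute A B := hB
    have := hc.cfc_nnreal NNReal.sqrt
    rw [← CFC.sqrt_eq_cfc] at this
    exact this

theorem tr_nonneg {M : Mt d} (hM : M.PosSemidef) : 0 ≤ tr M := by
  have h := hM.trace_nonneg
  exact (Complex.le_def.1 h).1

theorem tr_add (a b : Mt d) : tr (a + b) = tr a + tr b := by
  simp [tr, Matrix.trace_add]

theorem tr_sub (a b : Mt d) : tr (a - b) = tr a - tr b := by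
  simp [tr, Matrix.trace_sub]

theorem tr_comm (a b : Mt d) : tr (a * b) = tr (b * a) := by
  unfold tr; rw [Matrix.trace_mul_comm]

theorem tr_star (a : Mt d) : tr aᴴ = tr a := by
  unfold tr
  rw [Matrix.trace_conjTranspose]
  simp

theorem tr_smul (c : ℝ) (a : Mt d) : tr ((c : ℂ) • a) = c * tr a := by
  unfold tr
  rw [Matrix.trace_smul]
  simp

/-- `e` sandwiched: positive semidefinite -/
theorem psd_conj {M : Mt d} (hM : M.PosSemidef) (B : Mt d) : (Bᴴ * M * B).PosSemidef :=
  hM.conjTranspose_mul_mul_same B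

theorem main : CutP := by
  intro d f g e hf hg hg1 he hcomm hlow hupp
  obtain ⟨hfH, hff⟩ := hf
  obtain ⟨heH, hee⟩ := he
  have hgH : gᴴ = g := hg.isHermitian.eq
  obtain ⟨y, hy⟩ : ∃ y : Mt d, y = g * f * g := ⟨_, rfl⟩
  rw [← hy] at hcomm hlow hupp
  have hyH : yᴴ = y := by
    rw [hy, Matrix.conjTranspose_mul, Matrix.conjTranspose_mul, hgH, hfH, Matrix.mul_assoc]
  obtain ⟨A, hAdef⟩ : ∃ A : Mt d, A = y * e + (1 - e) := ⟨_, rfl⟩
  have heye : e * y * e = y * e := by
    rw [hcomm, Matrix.mul_assoc, hee]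
  have h1e : (1 - e)ᴴ = 1 - e := by
    rw [Matrix.conjTranspose_sub, Matrix.conjTranspose_one, heH]
  have h1ee : (1 - e) * (1 - e) = 1 - e := by
    rw [Matrix.mul_sub, Matrix.sub_mul, Matrix.sub_mul, Matrix.one_mul, hee, Matrix.one_mul,
      Matrix.mul_one]
    abel
  have h1epsd : (1 - e).PosSemidef := by
    have := Matrix.posSemidef_conjTranspose_mul_self (1 - e)
    rwa [h1e, h1ee] at this
  -- e y e - e/2
  have hEY : (y * e - (1 / 2 : ℂ) • e).PosSemidef := by
    have h := psd_conj hlow e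
    have h2 : eᴴ * (y - (1 / 2 : ℂ) • e) * e = y * e - (1 / 2 : ℂ) • e := by
      rw [heH, Matrix.mul_sub, Matrix.sub_mul, heye, Matrix.mul_smul, Matrix.smul_mul, hee, hee]
    rwa [h2] at h
  have hA : A.PosDef := by
    have h1 : A = (1 / 2 : ℂ) • (1 : Mt d) +
        ((y * e - (1 / 2 : ℂ) • e) + (1 / 2 : ℂ) • (1 - e)) := by
      rw [hAdef]
      ext i j
      simp only [Matrix.add_apply, Matrix.sub_apply, Matrix.smul_apply, smul_eq_mul]
      ring
    rw [h1]
    have h2 : ((1 / 2 : ℂ) • (1 : Mt d)).PosDef := by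
      refine Matrix.PosDef.smul Matrix.PosDef.one ?_
      rw [Complex.lt_def]
      norm_num
    have h3 : ((1 / 2 : ℂ) • (1 - e)).PosSemidef := by
      refine h1epsd.smul ?_
      rw [Complex.le_def]
      norm_num
    exact h2.add_posSemidef (hEY.add h3)
  obtain ⟨S, T, hS, hSS, hST, hTS, hTH, hcS⟩ := ex_sqrt A hA
  have hSH : Sᴴ = S := hS.isHermitian.eq
  have hcT : ∀ B : Mt d, A * B = B * A → T * B = B * T := by
    intro B hB
    have h := hcS B hB
    calc T * B = T * B * (S * T) := by rw [hST, Matrix.mul_one]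
      _ = T * (B * S) * T := by simp only [Matrix.mul_assoc]
      _ = T * (S * B) * T := by rw [h]
      _ = (T * S) * B * T := by simp only [Matrix.mul_assoc]
      _ = B * T := by rw [hTS, Matrix.one_mul]
  have hAe : A * e = y * e := by
    rw [hAdef, Matrix.add_mul, Matrix.mul_assoc, hee, Matrix.sub_mul, Matrix.one_mul, hee,
      sub_self, add_zero]
  have heA : e * A = y * e := by
    rw [hAdef, Matrix.mul_add, ← Matrix.mul_assoc, heye, Matrix.mul_sub, Matrix.mul_one, hee,
      sub_self, add_zero]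
  have hAec : A * e = e * A := by rw [hAe, heA]
  have hSe : S * e = e * S := hcS e hAec
  have hTe : T * e = e * T := hcT e hAec
  -- the partial isometry
  obtain ⟨V, hV⟩ : ∃ V : Mt d, V = f * g * T * e := ⟨_, rfl⟩
  have hVH : Vᴴ = e * T * g * f := by
    rw [hV]
    simp only [Matrix.conjTranspose_mul, heH, hTH, hgH, hfH, Matrix.mul_assoc]
  have hfV : f * V = V := by
    rw [hV]
    simp only [← Matrix.mul_assoc, hff]
  have hVe : V * e = V := by
    rw [hV, Matrix.mul_assoc, hee]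
  have hgV : g * V = S * e := by
    calc g * V = y * (T * e) := by rw [hV, hy]; simp only [Matrix.mul_assoc]
      _ = y * (e * T) := by rw [hTe]
      _ = (y * e) * T := by rw [Matrix.mul_assoc y e T]
      _ = (A * e) * T := by rw [hAe]
      _ = A * (e * T) := by rw [Matrix.mul_assoc]
      _ = A * (T * e) := by rw [hTe]
      _ = S * (S * T) * e := by rw [← hSS]; simp only [Matrix.mul_assoc]
      _ = S * e := by rw [hST, Matrix.mul_one]
  have hVg : Vᴴ * g = e * S := by
    have := congrArg Matrix.conjTranspose hgV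
    rwa [Matrix.conjTranspose_mul, Matrix.conjTranspose_mul, hgH, heH, hSH] at this
  have hVV : Vᴴ * V = e := by
    calc Vᴴ * V = e * T * g * f * V := by rw [hVH]
      _ = e * T * (g * (f * V)) := by simp only [Matrix.mul_assoc]
      _ = e * T * (S * e) := by rw [hfV, hgV]
      _ = e * (T * S) * e := by simp only [Matrix.mul_assoc]
      _ = e := by rw [hTS, Matrix.mul_one, hee]
  obtain ⟨P, hP⟩ : ∃ P : Mt d, P = V * Vᴴ := ⟨_, rfl⟩
  have hPH : Pᴴ = P := by
    rw [hP, Matrix.conjTranspose_mul, Matrix.conjTranspose_conjTranspose]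
  have hVVH : V * (Vᴴ * V) = V := by rw [hVV, hVe]
  have hPP : P * P = P := by
    calc P * P = (V * (Vᴴ * V)) * Vᴴ := by rw [hP]; simp only [Matrix.mul_assoc]
      _ = P := by rw [hVVH, ← hP]
  have hfP : f * P = P := by rw [hP, ← Matrix.mul_assoc, hfV]
  have hPf : P * f = P := by
    have := congrArg Matrix.conjTranspose hfP
    rwa [Matrix.conjTranspose_mul, hPH, hfH] at this
  have htrP : tr P = tr e := by rw [hP, tr_comm, hVV]
  -- the complement
  obtain ⟨q, hq⟩ : ∃ q : Mt d, q = f - P := ⟨_, rfl⟩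
  have hqH : qᴴ = q := by rw [hq, Matrix.conjTranspose_sub, hfH, hPH]
  have hqq : q * q = q := by
    rw [hq, Matrix.sub_mul, Matrix.mul_sub, Matrix.mul_sub, hff, hfP, hPf, hPP]
    abel
  have htrq : tr q = tr f - tr e := by rw [hq, tr_sub, htrP]
  have hq0 : 0 ≤ tr q := by
    have := tr_nonneg (Matrix.posSemidef_conjTranspose_mul_self q)
    rwa [hqH, hqq] at this
  obtain ⟨X, hX⟩ : ∃ X : Mt d, X = (1 - e) * g * f := ⟨_, rfl⟩
  have hgq : g * q = X := by
    have h1 : S * e * Vᴴ = e * g * f := by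
      rw [hVH]
      calc S * e * (e * T * g * f) = S * (e * e) * T * g * f := by simp only [Matrix.mul_assoc]
        _ = (S * e) * T * g * f := by rw [hee]
        _ = e * (S * T) * g * f := by rw [hSe]; simp only [Matrix.mul_assoc]
        _ = e * g * f := by rw [hST, Matrix.mul_one]
    rw [hq, Matrix.mul_sub, hP, ← Matrix.mul_assoc, hgV, h1, hX, Matrix.sub_mul, Matrix.sub_mul,
      Matrix.one_mul]
  have heX : (1 - e) * X = X := by
    rw [hX, ← Matrix.mul_assoc, ← Matrix.mul_assoc, h1ee]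
  have hXq : X * q = X := by rw [← hgq, Matrix.mul_assoc, hqq]
  have hXH : Xᴴ = q * g := by rw [← hgq, Matrix.conjTranspose_mul, hqH, hgH]
  have hXH' : Xᴴ = f * g * (1 - e) := by
    rw [hX, Matrix.conjTranspose_mul, Matrix.conjTranspose_mul, h1e, hgH, hfH, Matrix.mul_assoc]
  have hcomm' : (1 - e) * y = y * (1 - e) := by
    rw [Matrix.sub_mul, Matrix.mul_sub, hcomm, Matrix.one_mul, Matrix.mul_one]
  have hXX : X * Xᴴ = (1 - e) * y := by
    rw [hXH', hX]
    calc (1 - e) * g * f * (f * g * (1 - e)) = (1 - e) * (g * (f * f) * g) * (1 - e) := by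
          simp only [Matrix.mul_assoc]
      _ = (1 - e) * (y * (1 - e)) := by rw [hff, hy, Matrix.mul_assoc]
      _ = (1 - e) * y := by rw [← hcomm', ← Matrix.mul_assoc, h1ee]
  obtain ⟨N, hN⟩ : ∃ N : Mt d, N = Xᴴ * X := ⟨_, rfl⟩
  have hNH : Nᴴ = N := by
    rw [hN, Matrix.conjTranspose_mul, Matrix.conjTranspose_conjTranspose]
  have hNq : N * q = N := by rw [hN, Matrix.mul_assoc, hXq]
  have hqN : q * N = N := by
    have := congrArg Matrix.conjTranspose hNq
    rwa [Matrix.conjTranspose_mul, hNH, hqH] at this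
  -- k3
  have k3 : tr (N * N) ≤ 3 / 4 * tr N := by
    have h := tr_nonneg (psd_conj hupp X)
    have h2 : Xᴴ * ((3 / 4 : ℂ) • (1 - e) - (1 - e) * y) * X = ((3 / 4 : ℝ) : ℂ) • N - N * N := by
      rw [← hXX, Matrix.mul_sub, Matrix.sub_mul, Matrix.mul_smul, Matrix.smul_mul,
        Matrix.mul_assoc Xᴴ (1 - e) X, heX, hN]
      push_cast
      simp only [Matrix.mul_assoc]
    rw [h2, tr_sub, tr_smul] at h
    linarith
  have k2 : tr N ≤ 3 / 4 * tr q := by
    have h := tr_nonneg (Matrix.posSemidef_conjTranspose_mul_self (N - ((3 / 4 : ℝ) : ℂ) • q))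
    have h2 : (N - ((3 / 4 : ℝ) : ℂ) • q)ᴴ * (N - ((3 / 4 : ℝ) : ℂ) • q) =
        N * N - ((3 / 2 : ℝ) : ℂ) • N + ((9 / 16 : ℝ) : ℂ) • q := by
      have h3 : (((3 / 4 : ℝ) : ℂ) • q)ᴴ = ((3 / 4 : ℝ) : ℂ) • q := by
        rw [Matrix.conjTranspose_smul, hqH]
        congr 1
        simp
      rw [Matrix.conjTranspose_sub, h3, hNH, Matrix.sub_mul, Matrix.mul_sub, Matrix.mul_sub,
        Matrix.mul_smul, Matrix.smul_mul, Matrix.smul_mul, Matrix.mul_smul, hNq, hqN, hqq]
      ext i j
      simp only [Matrix.add_apply, Matrix.sub_apply, Matrix.smul_apply, smul_eq_mul]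
      push_cast
      ring
    rw [h2, tr_add, tr_sub, tr_smul, tr_smul] at h
    linarith
  have k1 : tr (g * q) ≤ 7 / 8 * tr q := by
    have h := tr_nonneg (Matrix.posSemidef_conjTranspose_mul_self (q - g * q))
    have h2 : (q - g * q)ᴴ * (q - g * q) = q - q * (g * q) - (q * g) * q + N := by
      rw [Matrix.conjTranspose_sub, Matrix.conjTranspose_mul, hqH, hgH, Matrix.sub_mul,
        Matrix.mul_sub, Matrix.mul_sub, hqq, hN, hXH, ← hgq]
      abel
    rw [h2, tr_add, tr_sub, tr_sub] at h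
    have h3 : tr (q * (g * q)) = tr (g * q) := by
      rw [tr_comm, Matrix.mul_assoc, hqq]
    have h4 : tr ((q * g) * q) = tr (g * q) := by
      rw [Matrix.mul_assoc, h3]
    rw [h3, h4] at h
    linarith
  -- b1
  have b0 : tr (Vᴴ * g * V) ≤ tr (g * e) := by
    have h := tr_nonneg (psd_conj hg (e - V))
    have h2 : (e - V)ᴴ * g * (e - V) = e * (g * e) - e * (S * e) - (e * S) * e + Vᴴ * g * V := by
      rw [Matrix.conjTranspose_sub, heH, Matrix.sub_mul, Matrix.sub_mul, Matrix.mul_sub,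
        Matrix.mul_sub, Matrix.mul_assoc e g V, hgV, hVg, Matrix.mul_assoc e g e]
      abel
    rw [h2, tr_add, tr_sub, tr_sub] at h
    have h3 : tr (e * (g * e)) = tr (g * e) := by
      rw [tr_comm, Matrix.mul_assoc, hee]
    have h4 : tr (e * (S * e)) = tr (S * e) := by
      rw [tr_comm, Matrix.mul_assoc, hee]
    have h5 : tr ((e * S) * e) = tr (S * e) := by rw [Matrix.mul_assoc, h4]
    rw [h3, h4, h5] at h
    have h' := tr_nonneg (psd_conj hS (Vᴴ - e))
    have h2' : (Vᴴ - e)ᴴ * S * (Vᴴ - e) =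
        V * S * Vᴴ - V * S * e - e * S * Vᴴ + e * S * e := by
      rw [Matrix.conjTranspose_sub, Matrix.conjTranspose_conjTranspose, heH, Matrix.sub_mul,
        Matrix.sub_mul, Matrix.mul_sub, Matrix.mul_sub]
      abel
    rw [h2', tr_add, tr_sub, tr_sub, h5] at h'
    have h6 : tr (V * S * Vᴴ) = tr (S * e) := by
      rw [Matrix.mul_assoc, tr_comm, Matrix.mul_assoc, hVV]
    have h7 : tr (e * S * Vᴴ) = tr (Vᴴ * g * V) := by
      rw [Matrix.mul_assoc Vᴴ g V, hgV, tr_comm Vᴴ (S * e), hSe]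
    have h8 : tr (V * S * e) = tr (Vᴴ * g * V) := by
      have h9 : (V * S * e)ᴴ = e * S * Vᴴ := by
        rw [Matrix.conjTranspose_mul, Matrix.conjTranspose_mul, heH, hSH, Matrix.mul_assoc]
      rw [← tr_star (V * S * e), h9, h7]
    rw [h6, h7, h8] at h'
    linarith
  refine ⟨by linarith [htrq, hq0], ?_, P, ⟨hPH, hPP⟩, hfP, htrP, ?_⟩
  · have e1 : tr ((1 - g) * e) = tr e - tr (g * e) := by
      rw [Matrix.sub_mul, Matrix.one_mul, tr_sub]
    have e2 : tr ((1 - g) * f) = tr e - tr (Vᴴ * g * V) + (tr q - tr (g * q)) := by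
      have hfe : f = P + q := by rw [hq]; abel
      rw [hfe, Matrix.sub_mul, Matrix.one_mul, tr_sub, Matrix.mul_add, tr_add, tr_add, htrP]
      have : tr (g * P) = tr (Vᴴ * g * V) := by
        rw [hP, tr_comm, Matrix.mul_assoc, tr_comm]
      rw [this]
      ring
    rw [e1, e2]
    linarith
  · have hgg : (g - g * g).PosSemidef := by
      have h1 := psd_conj hg1 g
      have h2 := psd_conj hg (1 - g)
      have h3 := h1.add h2
      have h4 : gᴴ * (1 - g) * g + (1 - g)ᴴ * g * (1 - g) = g - g * g := by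
        rw [Matrix.conjTranspose_sub, hgH, Matrix.conjTranspose_one]
        noncomm_ring
      rwa [h4] at h3
    have h1 := psd_conj (psd_conj hgg V) Vᴴ
    have h2 := psd_conj hEY Vᴴ
    have h3 := h1.add h2
    have h4 : Vᴴᴴ * (Vᴴ * (g - g * g) * V) * Vᴴ + Vᴴᴴ * (y * e - (1 / 2 : ℂ) • e) * Vᴴ =
        P * g * P - (1 / 2 : ℂ) • P := by
      rw [Matrix.conjTranspose_conjTranspose]
      have h5 : Vᴴ * (g * g) * V = y * e := by
        calc Vᴴ * (g * g) * V = (Vᴴ * g) * (g * V) := by simp only [Matrix.mul_assoc]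
          _ = e * (S * S) * e := by rw [hVg, hgV]; simp only [Matrix.mul_assoc]
          _ = y * e := by rw [hSS, heA, Matrix.mul_assoc, hee]
      rw [Matrix.mul_sub, Matrix.sub_mul, h5, Matrix.mul_sub, Matrix.sub_mul, Matrix.mul_sub,
        Matrix.sub_mul, Matrix.mul_smul, Matrix.smul_mul, hVe, ← hP]
      have h6 : V * (Vᴴ * g * V) * Vᴴ = P * g * P := by
        rw [hP]; simp only [Matrix.mul_assoc]
      rw [h6]
      abel
    rw [h4] at h3
    exact h3

end Pool.Agent.W239.RC.CUT
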